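import Pool.Agent.Run7.h458.BaseChange
set_option autoImplicit false
set_option linter.unusedSectionVars false

/-!
# Smooth closed subschemes of projective space
-/

open MvPolynomial Pool.Agent.Y129.TA
open Pool.Agent.Y129.TB (IsConeOver DimLEOver)

namespace Run7.h16.PX

/-- The scheme `V(P)` is smooth at the zero `x` of the homogeneous polynomials `P_l`: near `x` it is
defined by `c` of the `P_l` (some homogeneous `h` with `h(x) ≠ 0` multiplies all `P_l` into the ideal
generated by these `c`), and some `c × c` minor of the Jacobian matrix of these `c` is not zero at `x`. -/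
def SmoothAt {C : Type} [Field C] {n r : ℕ} (P : Fin r → MvPolynomial (Fin n) C) (x : Fin n → C) :
    Prop :=
  ∃ (c e : ℕ) (J : Fin c → Fin r) (I : Fin c → Fin n) (h : MvPolynomial (Fin n) C),
    h.IsHomogeneous e ∧ eval x h ≠ 0 ∧
      (∀ l, h * P l ∈ Ideal.span (Set.range fun j => P (J j))) ∧
        (Matrix.of fun j i : Fin c => eval x (pderiv (I i) (P (J j)))).det ≠ 0

/-- `X` (given by the points of its cone over `C`) is a smooth closed subscheme of dimension `d` of the
projective space over `K`: it is defined by forms `P_l` over `K`, the scheme `V(P)` is smooth at all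
points of `X`, and the dimension is `d`. -/
structure IsSmooth {C : Type} [Field C] (K : Type) [Field K] [Algebra K C] {n : ℕ}
    (X : Set (Fin (n + 1) → C)) (d : ℕ) : Prop where
  dimGE : DimGE X d
  dimLE : DimLEOver K X d
  eqs : ∃ (r : ℕ) (P : Fin r → MvPolynomial (Fin (n + 1)) K), (∀ l, IsForm (P l)) ∧
    X = {x | ∀ l, aeval x (P l) = 0} ∧
      ∀ x ∈ X, x ≠ 0 → SmoothAt (fun l => map (algebraMap K C) (P l)) x

/-- `X` (given by the points of its cone over `C`) is a closed subset of dimension `d` of the projective
space, defined over `K`. -/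
structure IsClosedOver {C : Type} [Field C] (K : Type) [Field K] [Algebra K C] {n : ℕ}
    (X : Set (Fin (n + 1) → C)) (d : ℕ) : Prop where
  cone : IsConeOver K X
  dimGE : DimGE X d
  dimLE : DimLEOver K X d

/-- The elements of `k` are dense in `C`. -/
def DenseIn {C : Type} [Field C] (a : AbsoluteValue C ℝ) (k : Type) [Field k] [Algebra k C] : Prop :=
  ∀ x : C, ∀ ε : ℝ, 0 < ε → ∃ e : k, a (algebraMap k C e - x) < ε

end Run7.h16.PX
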