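import Pool.Agent.Run7.h16.PX.Limit
set_option autoImplicit false
set_option linter.unusedSectionVars false

/-!
# The equivalences
-/

open MvPolynomial Pool.Agent.Y129.TA
open Pool.Agent.Y129.TB (IsConeOver Approximable InTube eval_map_alg DimLEOver form_map BaseField)
open Run7.h458

namespace Run7.h16.PX

section

variable {p : ℕ} [hp : Fact p.Prime] {C F k L : Type} [Field C] [Field F] [CharP F p] [Field k]
  [Field L] [Algebra k C] [Algebra L F]

theorem baseField_self [IsAlgClosed C] [IsAlgClosed F] (T : Tilting p C F) : BaseField T C F := by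
  refine ⟨fun a => ?_, ?_, ?_, ?_⟩
  · exact IsAlgClosed.exists_pow_nat_eq a (Fact.out : p.Prime).pos
  · obtain ⟨ϖ, hϖ⟩ := T.surj (p : C)
    refine ⟨ϖ, ?_⟩
    rw [Algebra.algebraMap_self, RingHom.id_apply, ← T.abs_sharp, hϖ]
  · intro x _
    exact ⟨T.θ x, rfl⟩
  · intro y hy
    obtain ⟨x, hx⟩ := T.θ_surj y hy
    exact ⟨x, fun n => ⟨_, rfl⟩, hx⟩

theorem approximable_restrict (T : TiltPair p C F) {n d : ℕ} {X : Set (Fin n → C)}
    (h : Approximable T C L X d) : Approximable T k L X d := by
  intro r P D hP hPX ε hε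
  obtain ⟨Y, h1, h2, h3, h4⟩ := h r (fun l => map (algebraMap k C) (P l)) D (fun l => (hP l).map _)
    (fun l x hx => by rw [aeval_map_algebraMap]; exact hPX l x hx) ε hε
  refine ⟨Y, h1, h2, h3, fun y hy l B hB => ?_⟩
  have h5 := h4 y hy l B hB
  rw [aeval_map_algebraMap] at h5
  exact h5

theorem smooth_tfae [IsAlgClosed k] [IsAlgClosed L] [IsAlgClosed C] [IsAlgClosed F] (T : Tilting p C F)
    (hk : DenseIn T.absK k) (hL : DenseIn T.absF L) (hF : CompleteFor T.absF) (n d : ℕ) : List.TFAE [
      ∀ X : Set (Fin (n + 1) → C), IsSmooth k X d → Approximable T.toTiltPair k L X d,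
      ∀ X : Set (Fin (n + 1) → C), IsSmooth C X d → Approximable T.toTiltPair C F X d,
      ∀ (K E : Type) [Field K] [Field E] [Algebra K C] [Algebra E F], BaseField T K E →
        IsCompletedClosure T.toTiltPair E → ∀ X : Set (Fin (n + 1) → C), IsSmooth K X d →
          Approximable T.toTiltPair K E X d] := by
  have hc : ∀ X : Set (Fin (n + 1) → C), IsSmooth k X d → IsConeOver k X := by
    intro X hX
    obtain ⟨r, P, hP, hXP, -⟩ := hX.eqs
    rw [hXP]
    exact cone_of P hP
  tfae_have 1 → 2 := fun h X hX =>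
    smooth_reduction T hk (fun X' hX' => ascends T (hc X' hX') (h X' hX')) hX
  tfae_have 2 → 3 := by
    intro h K E _ _ _ _ B hE X hX
    obtain ⟨r, P, hP, hXP, -⟩ := hX.eqs
    refine descends T B hE ?_ hX.dimLE (h X hX.extend)
    rw [hXP]
    exact cone_of P hP
  tfae_have 3 → 1 := by
    intro h X hX
    have h1 := h C F (baseField_self T) ⟨hF, fun u hu => hF u hu, fun x ε hε =>
      ⟨x, isAlgebraic_algebraMap x, by rw [sub_self, map_zero]; exact hε⟩⟩ X hX.extend
    exact approximable_restrict T.toTiltPair (approximable_dense T hL h1)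
  tfae_finish

theorem closed_tfae [IsAlgClosed k] [IsAlgClosed L] [IsAlgClosed C] [IsAlgClosed F] (T : Tilting p C F)
    (hk : DenseIn T.absK k) (hL : DenseIn T.absF L) (hF : CompleteFor T.absF) (n d : ℕ) : List.TFAE [
      ∀ X : Set (Fin (n + 1) → C), IsClosedOver k X d → Approximable T.toTiltPair k L X d,
      ∀ X : Set (Fin (n + 1) → C), IsClosedOver C X d → Approximable T.toTiltPair C F X d,
      ∀ (K E : Type) [Field K] [Field E] [Algebra K C] [Algebra E F], BaseField T K E →
        IsCompletedClosure T.toTiltPair E → ∀ X : Set (Fin (n + 1) → C), IsClosedOver K X d →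
          Approximable T.toTiltPair K E X d] := by
  have hself : ∀ X : Set (Fin (n + 1) → C), IsClosedOver k X d → IsClosedOver C X d := fun X hX =>
    ⟨cone_extend hX.cone, hX.dimGE, dimLEOver_self (dimLE_of hX.dimLE)⟩
  tfae_have 1 → 2 := fun h X hX =>
    closed_reduction T hk (fun X' hX' => ascends T hX'.cone (h X' hX')) hX
  tfae_have 2 → 3 := by
    intro h K E _ _ _ _ B hE X hX
    exact descends T B hE hX.cone hX.dimLE
      (h X ⟨cone_extend hX.cone, hX.dimGE, dimLEOver_self (dimLE_of hX.dimLE)⟩)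
  tfae_have 3 → 1 := by
    intro h X hX
    have h1 := h C F (baseField_self T) ⟨hF, fun u hu => hF u hu, fun x ε hε =>
      ⟨x, isAlgebraic_algebraMap x, by rw [sub_self, map_zero]; exact hε⟩⟩ X (hself X hX)
    exact approximable_restrict T.toTiltPair (approximable_dense T hL h1)
  tfae_finish

end

end Run7.h16.PX
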