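import Pool.Agent.Run7.h16.PX.Model
set_option autoImplicit false
set_option linter.unusedSectionVars false

/-!
# Q1 is stable under limits; reduction to a dense algebraically closed subfield
-/

open MvPolynomial Pool.Agent.Y129.TA
open Pool.Agent.Y129.TB (IsConeOver Approximable InTube eval_map_alg DimLEOver form_map BaseField)
open Run7.h458

namespace Run7.h16.PX

section

variable {p : ℕ} [hp : Fact p.Prime] {C F k : Type} [Field C] [Field F] [CharP F p] [Field k] [Algebra k C]

/-- Limits of closed subsets for which Q1 holds. -/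
theorem approximable_limit [IsAlgClosed C] [IsAlgClosed F] (T : Tilting p C F) {n d r : ℕ}
    (P : Fin r → MvPolynomial (Fin (n + 1)) C) (D : Fin r → ℕ) (hD : ∀ l, 0 < D l)
    (hP : ∀ l, (P l).IsHomogeneous (D l))
    (h : ∀ δ : ℝ, 0 < δ → ∃ γ : Fin r → MvPolynomial (Fin (n + 1)) C, (∀ l, (γ l).IsHomogeneous (D l)) ∧
      (∀ (y : Fin (n + 1) → C) l, (∀ i, T.absK (y i) ≤ 1) → T.absK (eval y (γ l) - eval y (P l)) ≤ δ) ∧
      Approximable T.toTiltPair C F {x | ∀ l, aeval x (γ l) = 0} d) :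
    Approximable T.toTiltPair C F {x | ∀ l, aeval x (P l) = 0} d := by
  classical
  intro r' Q D' hQ hQX ε hε
  have s1 : ∀ k : Fin r', ∃ δ : ℝ, 0 < δ ∧ ∀ v : Fin (n + 1) → C, (∀ i, T.absK (v i) ≤ 1) →
      (∀ l, T.absK (eval v (P l)) ≤ δ) → T.absK (eval v (Q k)) ≤ ε := by
    intro k
    refine small T.ultraK _ _ (fun v hv => ?_) hε
    have h1 := hQX k v (fun l => by rw [aeval_eq_eval]; exact hv l)
    rwa [aeval_eq_eval] at h1
  choose δ₁ hδ₁ hs1 using s1
  obtain ⟨δ, hδ, hδ'⟩ := exists_pos_le δ₁ hδ₁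
  obtain ⟨γ, hγ, hγP, hγa⟩ := h δ hδ
  obtain ⟨Y, hY, hYge, hYle, hYt⟩ := hγa r γ D hγ (fun l x hx => hx l) δ hδ
  refine ⟨Y, hY, hYge, hYle, fun y hy k B hB => ?_⟩
  have hB0 : 0 ≤ B := (T.absF.nonneg _).trans (hB 0)
  by_cases hy0 : y = 0
  · have h1 : (fun i => T.sharp (y i)) = 0 := by
      funext i
      rw [hy0]
      exact T.toTiltPair.sharp_zero
    have h2 : ∀ l, aeval (0 : Fin (n + 1) → C) (P l) = 0 := by
      intro l
      have h3 := eval_smul_of_homogeneous (hP l) 0 (0 : Fin (n + 1) → C)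
      rw [zero_pow (hD l).ne', zero_mul] at h3
      rw [aeval_eq_eval]
      have h4 : (fun i => (0 : C) * (0 : Fin (n + 1) → C) i) = 0 := by
        funext i
        simp
      rw [h4] at h3
      exact h3
    rw [h1, hQX k 0 h2, map_zero]
    positivity
  · obtain ⟨a, ha', h3, t, h4⟩ := exists_normal T.toTiltPair hy0
    have h3' : ∀ i, T.absK (T.sharp (a * y i)) ≤ 1 := fun i => by rw [T.abs_sharp]; exact h3 i
    have h5 := hs1 k (fun i => T.sharp (a * y i)) h3' fun l => by
      have h6 := hYt (a • y) (hY.2 a y hy) l 1 h3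
      rw [one_pow, mul_one, aeval_eq_eval] at h6
      have h7 := hγP (fun i => T.sharp (a * y i)) l h3'
      have e1 : eval (fun i => T.sharp (a * y i)) (P l) = eval (fun i => T.sharp (a * y i)) (γ l) +
          -(eval (fun i => T.sharp (a * y i)) (γ l) - eval (fun i => T.sharp (a * y i)) (P l)) := by ring
      rw [e1]
      refine ((T.ultraK _ _).trans (max_le h6 ?_)).trans (hδ' k)
      rw [T.absK.map_neg]
      exact h7
    have h6 : (fun i => T.sharp (a * y i)) = fun i => T.sharp a * T.sharp (y i) := by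
      funext i
      exact map_mul _ _ _
    rw [h6, eval_smul_of_homogeneous (hQ k), map_mul, map_pow, T.abs_sharp] at h5
    rw [aeval_eq_eval]
    have h7 : 0 < T.absF a := T.absF.pos ha'
    have h8 : 1 ≤ T.absF a * B := by
      rw [← h4, map_mul]
      exact mul_le_mul_of_nonneg_left (hB t) h7.le
    have h9 : (0 : ℝ) < T.absF a ^ D' k := pow_pos h7 _
    refine le_of_mul_le_mul_left ?_ h9
    refine h5.trans ?_
    have h10 : (1 : ℝ) ≤ (T.absF a * B) ^ D' k := one_le_pow₀ h8
    calc ε = ε * 1 := (mul_one ε).symm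
      _ ≤ ε * (T.absF a * B) ^ D' k := mul_le_mul_of_nonneg_left h10 hε.le
      _ = T.absF a ^ D' k * (ε * B ^ D' k) := by rw [mul_pow]; ring

theorem dimLE_of {n d : ℕ} {X : Set (Fin n → C)} (h : DimLEOver k X d) : DimLE X d := by
  obtain ⟨q, hq, hq0⟩ := h
  refine ⟨fun j => MvPolynomial.map (algebraMap k C) (q j), fun j => form_map (hq j), fun y hy hyq => ?_⟩
  exact hq0 y hy fun j => by
    rw [← eval_map_alg]
    exact hyq j

theorem dimLEOver_self {n d : ℕ} {X : Set (Fin n → C)} (h : DimLE X d) : DimLEOver C X d := by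
  obtain ⟨q, hq, hq0⟩ := h
  refine ⟨q, hq, fun y hy hyq => ?_⟩
  exact hq0 y hy fun j => by
    rw [← aeval_eq_eval]
    exact hyq j

/-- Forms over `k`. -/
theorem approximable_of_model [IsAlgClosed k] [IsAlgClosed C] [IsAlgClosed F] (T : Tilting p C F)
    (hk : DenseIn T.absK k) {n d r : ℕ} (P : Fin r → MvPolynomial (Fin (n + 1)) C)
    (hP : ∀ l, IsForm (P l)) (hge : DimGE {x : Fin (n + 1) → C | ∀ l, aeval x (P l) = 0} d)
    (hle : DimLE {x : Fin (n + 1) → C | ∀ l, aeval x (P l) = 0} d)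
    (h : ∀ γ : Fin r → MvPolynomial (Fin (n + 1)) k, (∀ l, IsForm (γ l)) →
      DimGE {x : Fin (n + 1) → C | ∀ l, aeval x (γ l) = 0} d →
      DimLEOver k {x : Fin (n + 1) → C | ∀ l, aeval x (γ l) = 0} d →
      ((∀ x : Fin (n + 1) → C, (∀ l, eval x (P l) = 0) → x ≠ 0 → SmoothAt P x) →
        ∀ x : Fin (n + 1) → C, (∀ l, aeval x (γ l) = 0) → x ≠ 0 →
          SmoothAt (fun l => map (algebraMap k C) (γ l)) x) →
      Approximable T.toTiltPair C F {x : Fin (n + 1) → C | ∀ l, aeval x (γ l) = 0} d) :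
    Approximable T.toTiltPair C F {x : Fin (n + 1) → C | ∀ l, aeval x (P l) = 0} d := by
  classical
  choose D hD hPD using hP
  have hc0 : CharZero C := charZero_of_tilt T.toTiltPair
  have hk0 : CharZero k := (algebraMap k C).charZero
  let nC : NormedField C := T.absK.toNormedField
  have hM : ManyNodes ((NormedField.toAbsoluteValue C).comp (algebraMap k C).injective) :=
    manyNodes₀ (p := p) _ (fun x y => by
      change T.absK (algebraMap k C (x + y)) ≤ max (T.absK (algebraMap k C x)) (T.absK (algebraMap k C y))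
      rw [map_add]
      exact T.ultraK _ _) (by
      change T.absK (algebraMap k C (p : k)) < 1
      rw [map_natCast]
      exact T.p_lt)
  have hs : {x : Fin (n + 1) → C | ∀ l, eval x (P l) = 0} = {x | ∀ l, aeval x (P l) = 0} := by
    ext w
    simp only [Set.mem_ofPred_eq, aeval_eq_eval]
  refine approximable_limit T P D hD hPD fun δ hδ => ?_
  obtain ⟨γ, hγ, h1, h2, h3, h4⟩ := exists_model T.ultraK hM hk P D hPD (by rw [hs]; exact hge)
    (by rw [hs]; exact hle) hδ
  refine ⟨fun l => map (algebraMap k C) (γ l), fun l => (hγ l).map _, fun y l hy => ?_, ?_⟩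
  · have h5 := h4 y l hy
    rw [eval_map_alg]
    exact h5
  · have h5 := h γ (fun l => ⟨D l, hD l, hγ l⟩) h1 h2 h3
    have h6 : {x : Fin (n + 1) → C | ∀ l, aeval x (map (algebraMap k C) (γ l)) = 0} =
        {x | ∀ l, aeval x (γ l) = 0} := by
      ext w
      simp only [Set.mem_ofPred_eq, aeval_map_algebraMap]
    rw [h6]
    exact h5

theorem cone_of [IsAlgClosed C] {K : Type} [Field K] [Algebra K C] {n r : ℕ} (P : Fin r → MvPolynomial (Fin (n + 1)) K)
    (hP : ∀ l, IsForm (P l)) : IsConeOver K {x : Fin (n + 1) → C | ∀ l, aeval x (P l) = 0} := by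
  have hinf : Infinite C := IsAlgClosed.instInfinite
  refine ⟨⟨Ideal.span (Set.range P), ?_⟩, ?_⟩
  · ext y
    rw [mem_zeroLocus_iff]
    constructor
    · intro hy f hf
      have h1 : Ideal.span (Set.range P) ≤ RingHom.ker (aeval y : MvPolynomial (Fin (n + 1)) K →ₐ[K] C) := by
        rw [Ideal.span_le]
        rintro _ ⟨l, rfl⟩
        exact hy l
      exact h1 hf
    · intro hy l
      exact hy _ (Ideal.subset_span ⟨l, rfl⟩)
  · intro a y hy l
    obtain ⟨D, -, hD⟩ := hP l
    have h1 := Pool.Agent.R388.TP.aeval_smul hD a y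
    rw [hy l, mul_zero] at h1
    exact h1

theorem IsSmooth.extend {K : Type} [Field K] [Algebra K C] {n d : ℕ} {X : Set (Fin (n + 1) → C)}
    (h : IsSmooth K X d) : IsSmooth C X d := by
  obtain ⟨h1, h2, r, P, hP, hX, hs⟩ := h
  refine ⟨h1, dimLEOver_self (dimLE_of h2), r, fun l => map (algebraMap K C) (P l), fun l => form_map (hP l),
    ?_, ?_⟩
  · rw [hX]
    ext w
    simp only [Set.mem_ofPred_eq, aeval_map_algebraMap]
  · intro x hx hx0
    have h3 := hs x hx hx0
    simpa only [Algebra.algebraMap_self, map_id] using h3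

/-- The smooth case over `C`. -/
theorem smooth_reduction [IsAlgClosed k] [IsAlgClosed C] [IsAlgClosed F] (T : Tilting p C F)
    (hk : DenseIn T.absK k) {n d : ℕ}
    (h : ∀ X : Set (Fin (n + 1) → C), IsSmooth k X d → Approximable T.toTiltPair C F X d)
    {X : Set (Fin (n + 1) → C)} (hX : IsSmooth C X d) : Approximable T.toTiltPair C F X d := by
  obtain ⟨h1, h2, r, P, hP, rfl, hs⟩ := hX
  refine approximable_of_model T hk P hP h1 (dimLE_of h2) fun γ hγ h3 h4 h5 => h _ ⟨h3, h4, r, γ, hγ, rfl, ?_⟩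
  refine h5 fun x hx hx0 => ?_
  have h6 := hs x (fun l => by rw [aeval_eq_eval]; exact hx l) hx0
  simpa only [Algebra.algebraMap_self, map_id] using h6

/-- The case of all closed subsets over `C`. -/
theorem closed_reduction [IsAlgClosed k] [IsAlgClosed C] [IsAlgClosed F] (T : Tilting p C F)
    (hk : DenseIn T.absK k) {n d : ℕ}
    (h : ∀ X : Set (Fin (n + 1) → C), IsClosedOver k X d → Approximable T.toTiltPair C F X d)
    {X : Set (Fin (n + 1) → C)} (hX : IsClosedOver C X d) : Approximable T.toTiltPair C F X d := by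
  obtain ⟨h0, h1, h2⟩ := hX
  have hinf : Infinite C := IsAlgClosed.instInfinite
  obtain ⟨y₀, hy₀, -⟩ := h1 (fun _ => 0) fun _ => ⟨1, one_pos, isHomogeneous_zero _ _ _⟩
  obtain ⟨r, P, hP, hXP⟩ := Pool.Agent.R388.TP.exists_gens h0 ⟨y₀, hy₀⟩
  subst hXP
  exact approximable_of_model T hk P hP h1 (dimLE_of h2) fun γ hγ h3 h4 _ => h _ ⟨cone_of γ hγ, h3, h4⟩

/-- The smooth case over all perfectoid fields with the completed algebraic closure `C`. -/
theorem smooth_all [IsAlgClosed k] [IsAlgClosed C] [IsAlgClosed F] (T : Tilting p C F)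
    (hk : DenseIn T.absK k) {n d : ℕ}
    (h : ∀ X : Set (Fin (n + 1) → C), IsSmooth k X d → Approximable T.toTiltPair C F X d)
    {K E : Type} [Field K] [Field E] [Algebra K C] [Algebra E F] (B : BaseField T K E)
    (hE : IsCompletedClosure T.toTiltPair E) {X : Set (Fin (n + 1) → C)} (hX : IsSmooth K X d) :
    Approximable T.toTiltPair K E X d := by
  have h1 := smooth_reduction T hk h hX.extend
  obtain ⟨r, P, hP, hXP, -⟩ := hX.eqs
  refine descends T B hE ?_ hX.dimLE h1
  rw [hXP]
  exact cone_of P hP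

theorem closed_all [IsAlgClosed k] [IsAlgClosed C] [IsAlgClosed F] (T : Tilting p C F)
    (hk : DenseIn T.absK k) {n d : ℕ}
    (h : ∀ X : Set (Fin (n + 1) → C), IsClosedOver k X d → Approximable T.toTiltPair C F X d)
    {K E : Type} [Field K] [Field E] [Algebra K C] [Algebra E F] (B : BaseField T K E)
    (hE : IsCompletedClosure T.toTiltPair E) {X : Set (Fin (n + 1) → C)} (hX : IsClosedOver K X d) :
    Approximable T.toTiltPair K E X d :=
  descends T B hE hX.cone hX.dimLE (closed_reduction T hk h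
    ⟨cone_extend hX.cone, hX.dimGE, dimLEOver_self (dimLE_of hX.dimLE)⟩)

end

end Run7.h16.PX
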