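import Pool.Agent.Run7.h16.PX.Spec
import Pool.Agent.Run7.h16.PX.Defs
set_option autoImplicit false
set_option linter.unusedSectionVars false

/-!
# Smooth models over a dense algebraically closed subfield
-/

open MvPolynomial Pool.Agent.Y129.TA
open Pool.Agent.Y129.TB (IsConeOver Approximable InTube eval_map_alg DimLEOver form_map)
open Run7.h458

namespace Run7.h16.PX

theorem smoothAt_of_smul {C : Type} [Field C] {n r : ℕ} {P : Fin r → MvPolynomial (Fin n) C}
    {D : Fin r → ℕ} (hP : ∀ l, (P l).IsHomogeneous (D l)) {a : C} {x : Fin n → C}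
    (h : SmoothAt P (fun i => a * x i)) : SmoothAt P x := by
  obtain ⟨c, e, J, I, h, hh, hx, hl, hdet⟩ := h
  refine ⟨c, e, J, I, h, hh, ?_, hl, ?_⟩
  · intro h0
    apply hx
    rw [eval_smul_of_homogeneous hh a x, h0, mul_zero]
  · intro h0
    apply hdet
    have h1 : (Matrix.of fun j i : Fin c => eval (fun i => a * x i) (pderiv (I i) (P (J j)))) =
        Matrix.of fun j i => a ^ (D (J j) - 1) *
          (Matrix.of fun j i : Fin c => eval x (pderiv (I i) (P (J j)))) j i := by
      ext j i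
      simp only [Matrix.of_apply]
      exact eval_smul_of_homogeneous (hP (J j)).pderiv a x
    rw [h1, Matrix.det_mul_column, h0, mul_zero]

theorem exists_normalize {C : Type} [NormedField C] {n : ℕ} {x : Fin n → C} (hx : x ≠ 0) :
    ∃ a : C, a ≠ 0 ∧ (∀ i, ‖a * x i‖ ≤ 1) ∧ ∃ t, ‖a * x t‖ = 1 := by
  have hne : ∃ t, x t ≠ 0 := by
    by_contra h
    push Not at h
    exact hx (funext h)
  have hne' : Nonempty (Fin n) := ⟨hne.choose⟩
  obtain ⟨t, ht⟩ := Finite.exists_max fun t => ‖x t‖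
  have hxt : x t ≠ 0 := by
    intro h
    obtain ⟨u, hu⟩ := hne
    have h1 := ht u
    rw [h, norm_zero] at h1
    exact hu (norm_le_zero_iff.1 h1)
  have h0 : 0 < ‖x t‖ := norm_pos_iff.2 hxt
  refine ⟨(x t)⁻¹, inv_ne_zero hxt, fun i => ?_, t, ?_⟩
  · rw [norm_mul, norm_inv, inv_mul_le_iff₀ h0, mul_one]
    exact ht i
  · rw [inv_mul_cancel₀ hxt, norm_one]

theorem map_jac {A B : Type} [CommRing A] [CommRing B] (φ : A →+* B) {n r c : ℕ}
    (P : Fin r → MvPolynomial (Fin n) A) (J : Fin c → Fin r) (I : Fin c → Fin n) :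
    map φ (Matrix.of fun j i : Fin c => pderiv (I i) (P (J j))).det =
      (Matrix.of fun j i : Fin c => pderiv (I i) (map φ (P (J j)))).det := by
  rw [RingHom.map_det]
  congr 1
  ext1 j i
  rw [RingHom.mapMatrix_apply, Matrix.map_apply, Matrix.of_apply, Matrix.of_apply, pderiv_map]

theorem eval_jac {A : Type} [CommRing A] {n r c : ℕ} (x : Fin n → A)
    (P : Fin r → MvPolynomial (Fin n) A) (J : Fin c → Fin r) (I : Fin c → Fin n) :
    eval x (Matrix.of fun j i : Fin c => pderiv (I i) (P (J j))).det =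
      (Matrix.of fun j i : Fin c => eval x (pderiv (I i) (P (J j)))).det := by
  rw [RingHom.map_det]
  congr 1

/-- Smooth models over a dense algebraically closed subfield. -/
theorem exists_model {k C : Type} [Field k] [IsAlgClosed k] [NormedField C] [IsAlgClosed C] [Algebra k C]
    (ha : ∀ x y : C, ‖x + y‖ ≤ max ‖x‖ ‖y‖)
    (hM : ManyNodes ((NormedField.toAbsoluteValue C).comp (algebraMap k C).injective))
    (hd : ∀ x : C, ∀ ε : ℝ, 0 < ε → ∃ e : k, ‖algebraMap k C e - x‖ < ε) {n d r : ℕ}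
    (P : Fin r → MvPolynomial (Fin (n + 1)) C) (D : Fin r → ℕ) (hP : ∀ l, (P l).IsHomogeneous (D l))
    (hge : DimGE {x : Fin (n + 1) → C | ∀ l, eval x (P l) = 0} d)
    (hle : DimLE {x : Fin (n + 1) → C | ∀ l, eval x (P l) = 0} d) {δ : ℝ} (hδ : 0 < δ) :
    ∃ γ : Fin r → MvPolynomial (Fin (n + 1)) k, (∀ l, (γ l).IsHomogeneous (D l)) ∧
      DimGE {x : Fin (n + 1) → C | ∀ l, aeval x (γ l) = 0} d ∧
      DimLEOver k {x : Fin (n + 1) → C | ∀ l, aeval x (γ l) = 0} d ∧
      ((∀ x : Fin (n + 1) → C, (∀ l, eval x (P l) = 0) → x ≠ 0 → SmoothAt P x) →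
        ∀ x : Fin (n + 1) → C, (∀ l, aeval x (γ l) = 0) → x ≠ 0 →
          SmoothAt (fun l => map (algebraMap k C) (γ l)) x) ∧
      ∀ (y : Fin (n + 1) → C) l, (∀ i, ‖y i‖ ≤ 1) → ‖aeval y (γ l) - eval y (P l)‖ ≤ δ := by
  classical
  let 𝓕 : Set (MvPolynomial (Fin (n + 1)) C) := {f | ∃ (c e : ℕ) (J : Fin c → Fin r)
    (I : Fin c → Fin (n + 1)) (h : MvPolynomial (Fin (n + 1)) C), h.IsHomogeneous e ∧
      f = (Matrix.of fun j i : Fin c => pderiv (I i) (P (J j))).det * h ∧
        ∀ l, h * P l ∈ Ideal.span (Set.range fun j => P (J j))}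
  obtain ⟨S, hS𝓕, hspan⟩ := (Submodule.fg_span_iff_fg_span_finset_subset 𝓕).1
    (IsNoetherian.noetherian (Submodule.span (MvPolynomial (Fin (n + 1)) C) 𝓕))
  have hch : ∀ f : S, ∃ (c e : ℕ) (J : Fin c → Fin r) (I : Fin c → Fin (n + 1))
      (h : MvPolynomial (Fin (n + 1)) C) (B : Fin r → Fin c → MvPolynomial (Fin (n + 1)) C),
      h.IsHomogeneous e ∧
      (f : MvPolynomial (Fin (n + 1)) C) = (Matrix.of fun j i : Fin c => pderiv (I i) (P (J j))).det * h ∧
        ∀ l, ∑ j, B l j * P (J j) = h * P l := by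
    intro f
    obtain ⟨c, e, J, I, h, h1, h2, h3⟩ := hS𝓕 f.2
    choose B hB using fun l => (Ideal.mem_span_range_iff_exists_fun).1 (h3 l)
    exact ⟨c, e, J, I, h, B, h1, h2, hB⟩
  choose c e J I h B hh hf hB using hch
  obtain ⟨q, hq, hq0⟩ := hle
  -- constants
  have s1 : ∀ t : Fin (n + 1), ∃ δ : ℝ, 0 < δ ∧ ∀ v : Fin (n + 1) → C,
      (∀ i, NormedField.toAbsoluteValue C (v i) ≤ 1) →
      (∀ k, NormedField.toAbsoluteValue C (eval v (Sum.elim P q k)) ≤ δ) →
        NormedField.toAbsoluteValue C (eval v (X t)) ≤ 1 / 2 := by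
    intro t
    refine small ha _ _ (fun v hv => ?_) (by norm_num)
    have h3 := hq0 v (fun l => hv (Sum.inl l)) fun j => hv (Sum.inr j)
    rw [eval_X, h3]
    rfl
  choose δ₁ hδ₁ hs1 using s1
  obtain ⟨δ₂, hδ₂, hδ₂'⟩ := exists_pos_le δ₁ hδ₁
  have s2 : ∃ δ₃ : ℝ, 0 < δ₃ ∧ ((∀ x : Fin (n + 1) → C, (∀ l, eval x (P l) = 0) → x ≠ 0 → SmoothAt P x) →
      ∀ v : Fin (n + 1) → C, (∀ i, ‖v i‖ ≤ 1) → (∀ l, ‖eval v (P l)‖ ≤ δ₃) →
        (∀ f : S, ‖eval v (f : MvPolynomial (Fin (n + 1)) C)‖ ≤ δ₃) → ∀ t, ‖v t‖ ≤ 1 / 2) := by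
    by_cases hsm : ∀ x : Fin (n + 1) → C, (∀ l, eval x (P l) = 0) → x ≠ 0 → SmoothAt P x
    · have s3 : ∀ t : Fin (n + 1), ∃ δ : ℝ, 0 < δ ∧ ∀ v : Fin (n + 1) → C,
          (∀ i, NormedField.toAbsoluteValue C (v i) ≤ 1) →
          (∀ k, NormedField.toAbsoluteValue C (eval v (Sum.elim P (fun f : S => (f : MvPolynomial (Fin (n + 1)) C)) k)) ≤ δ) →
            NormedField.toAbsoluteValue C (eval v (X t)) ≤ 1 / 2 := by
        intro t
        refine small ha _ _ (fun v hv => ?_) (by norm_num)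
        have h4 : v = 0 := by
          by_contra hv0
          obtain ⟨c', e', J', I', h', h1, h2, h3, h5⟩ := hsm v (fun l => hv (Sum.inl l)) hv0
          have h6 : (Matrix.of fun j i : Fin c' => pderiv (I' i) (P (J' j))).det * h' ∈
              Submodule.span (MvPolynomial (Fin (n + 1)) C) 𝓕 :=
            Submodule.subset_span ⟨c', e', J', I', h', h1, rfl, h3⟩
          rw [hspan] at h6
          have h7 : Submodule.span (MvPolynomial (Fin (n + 1)) C) (S : Set (MvPolynomial (Fin (n + 1)) C)) ≤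
              (RingHom.ker (eval v) : Ideal (MvPolynomial (Fin (n + 1)) C)) := by
            rw [Submodule.span_le]
            intro f hf'
            exact hv (Sum.inr ⟨f, hf'⟩)
          have h8 : eval v ((Matrix.of fun j i : Fin c' => pderiv (I' i) (P (J' j))).det * h') = 0 := h7 h6
          rw [map_mul, eval_jac] at h8
          exact (mul_ne_zero h5 h2) h8
        rw [eval_X, h4]
        rfl
      choose δ₄ hδ₄ hs3 using s3
      obtain ⟨δ₅, hδ₅, hδ₅'⟩ := exists_pos_le δ₄ hδ₄
      refine ⟨δ₅, hδ₅, fun _ v hv hv1 hv2 t => ?_⟩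
      have h9 := hs3 t v hv (by
        rintro (l | f)
        · exact (hv1 l).trans (hδ₅' t)
        · exact (hv2 f).trans (hδ₅' t))
      rw [eval_X] at h9
      exact h9
    · exact ⟨1, one_pos, fun h' => absurd h' hsm⟩
  obtain ⟨δ₃, hδ₃, hs2⟩ := s2
  -- the lifts
  let Q : (Fin r ⊕ Fin (d + 1)) ⊕ ((S ⊕ S) ⊕ ((f : S) × (Fin r × Fin (c f)))) → MvPolynomial (Fin (n + 1)) C :=
    Sum.elim (Sum.elim P q) (Sum.elim (Sum.elim (fun f => (f : MvPolynomial (Fin (n + 1)) C)) h)
      fun t => B t.1 t.2.1 t.2.2)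
  obtain ⟨m, s, z, G, hz, hG, hGh, hGy⟩ := exists_lift ha hM hd Q (δ := min δ (min δ₂ δ₃))
    (lt_min hδ (lt_min hδ₂ hδ₃))
  let γ : Fin r → MvPolynomial (Fin (n + 1)) k := fun l => map (eval z) (G (Sum.inl (Sum.inl l)))
  let q' : Fin (d + 1) → MvPolynomial (Fin (n + 1)) k := fun l => map (eval z) (G (Sum.inl (Sum.inr l)))
  let f' : S → MvPolynomial (Fin (n + 1)) k := fun f => map (eval z) (G (Sum.inr (Sum.inl (Sum.inl f))))
  let h' : S → MvPolynomial (Fin (n + 1)) k := fun f => map (eval z) (G (Sum.inr (Sum.inl (Sum.inr f))))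
  let B' : (f : S) → Fin r → Fin (c f) → MvPolynomial (Fin (n + 1)) k := fun f l j =>
    map (eval z) (G (Sum.inr (Sum.inr ⟨f, l, j⟩)))
  have hzz : ∀ f : MvPolynomial (Fin m) k, aeval (fun i => algebraMap k C (z i)) f =
      algebraMap k C (eval z f) := fun f =>
    (MvPolynomial.eval₂_comp_left (algebraMap k C) (RingHom.id k) z f).symm
  have hmm : ∀ l, map (aeval fun i => algebraMap k C (z i)).toRingHom (G l) =
      map (algebraMap k C) (map (eval z) (G l)) := by
    intro l
    rw [map_map]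
    congr 1
    exact congrArg _ (RingHom.ext fun f => hzz f)
  have hγ : ∀ l, (γ l).IsHomogeneous (D l) := fun l =>
    (hGh (Sum.inl (Sum.inl l)) (D l) (hP l)).map _
  -- closeness at zeros
  have hclP : ∀ x : Fin (n + 1) → C, (∀ i, ‖x i‖ ≤ 1) → (∀ l, aeval x (γ l) = 0) → ∀ l,
      ‖eval x (P l)‖ ≤ min δ (min δ₂ δ₃) := by
    intro x hx hx0 l
    have h1 := hGy x (Sum.inl (Sum.inl l)) hx
    change ‖aeval x (γ l) - eval x (P l)‖ ≤ _ at h1
    rw [hx0 l, zero_sub, norm_neg] at h1
    exact h1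
  refine ⟨γ, hγ, ?_, ⟨q', ?_, ?_⟩, ?_, ?_⟩
  · have h1 := dimGE_specialize (E₁ := k) (F := C) (s := s) (z := fun i => algebraMap k C (z i)) (d := d)
      (fun f hf => by rw [hzz, hz f hf, map_zero]) (fun l => G (Sum.inl (Sum.inl l))) D
      (fun l => hGh _ _ (hP l)) (by
        have h2 : ∀ l : Fin r, map (aeval s).toRingHom (G (Sum.inl (Sum.inl l))) = P l := fun l => hG _
        simpa only [h2] using hge)
    simpa only [hmm, eval_map_alg] using h1
  · intro j
    obtain ⟨Dj, hDj, hqj⟩ := hq j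
    exact ⟨Dj, hDj, (hGh (Sum.inl (Sum.inr j)) Dj hqj).map _⟩
  · intro x hx hxq
    by_contra hx0
    obtain ⟨a, ha0, h1, t, ht⟩ := exists_normalize hx0
    have h2 : ∀ l, aeval (fun i => a * x i) (γ l) = 0 := by
      intro l
      rw [← eval_map_alg, eval_smul_of_homogeneous ((hγ l).map _) a x, eval_map_alg, hx l, mul_zero]
    have h3 : ∀ j, aeval (fun i => a * x i) (q' j) = 0 := by
      intro j
      obtain ⟨Dj, hDj, hqj⟩ := hq j
      have h4 : (q' j).IsHomogeneous Dj := (hGh (Sum.inl (Sum.inr j)) Dj hqj).map _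
      rw [← eval_map_alg, eval_smul_of_homogeneous (h4.map _) a x, eval_map_alg, hxq j, mul_zero]
    have h5 := hs1 t (fun i => a * x i) h1 (by
      rintro (l | j)
      · exact (hclP _ h1 h2 l).trans ((min_le_right _ _).trans ((min_le_left _ _).trans (hδ₂' t)))
      · have h6 := hGy (fun i => a * x i) (Sum.inl (Sum.inr j)) h1
        change ‖aeval _ (q' j) - eval _ (q j)‖ ≤ _ at h6
        rw [h3 j, zero_sub, norm_neg] at h6
        exact h6.trans ((min_le_right _ _).trans ((min_le_left _ _).trans (hδ₂' t))))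
    rw [eval_X] at h5
    change ‖a * x t‖ ≤ 1 / 2 at h5
    rw [ht] at h5
    norm_num at h5
  · intro hsm x hx hx0
    obtain ⟨a, ha0, h1, t, ht⟩ := exists_normalize hx0
    have h2 : ∀ l, aeval (fun i => a * x i) (γ l) = 0 := by
      intro l
      rw [← eval_map_alg, eval_smul_of_homogeneous ((hγ l).map _) a x, eval_map_alg, hx l, mul_zero]
    have hex : ∃ f : S, aeval (fun i => a * x i) (f' f) ≠ 0 := by
      by_contra hall
      push Not at hall
      have h3 := hs2 hsm (fun i => a * x i) h1 (fun l => (hclP _ h1 h2 l).trans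
        ((min_le_right _ _).trans (min_le_right _ _))) (fun f => by
          have h6 := hGy (fun i => a * x i) (Sum.inr (Sum.inl (Sum.inl f))) h1
          change ‖aeval _ (f' f) - eval _ (f : MvPolynomial (Fin (n + 1)) C)‖ ≤ _ at h6
          rw [hall f, zero_sub, norm_neg] at h6
          exact h6.trans ((min_le_right _ _).trans (min_le_right _ _))) t
      rw [ht] at h3
      norm_num at h3
    obtain ⟨f, hf0⟩ := hex
    -- the identities
    have e1 : f' f = (Matrix.of fun j i : Fin (c f) => pderiv (I f i) (γ (J f j))).det * h' f := by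
      rw [← sub_eq_zero]
      have h3 := transfer hz (R := G (Sum.inr (Sum.inl (Sum.inl f))) -
        (Matrix.of fun j i : Fin (c f) => pderiv (I f i) (G (Sum.inl (Sum.inl (J f j))))).det *
          G (Sum.inr (Sum.inl (Sum.inr f)))) (by
          rw [map_sub, map_mul, hG, hG, map_jac (aeval s).toRingHom (fun l => G (Sum.inl (Sum.inl l))) (J f) (I f)]
          have h4 : ∀ l : Fin r, map (aeval s).toRingHom (G (Sum.inl (Sum.inl l))) = P l := fun l => hG _
          simp only [h4]
          change (f : MvPolynomial (Fin (n + 1)) C) - _ * h f = 0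
          rw [hf f]
          exact sub_self _)
      rw [map_sub, map_mul, map_jac (eval z) (fun l => G (Sum.inl (Sum.inl l))) (J f) (I f)] at h3
      exact h3
    have e2 : ∀ l, ∑ j, B' f l j * γ (J f j) = h' f * γ l := by
      intro l
      rw [← sub_eq_zero]
      have h3 := transfer hz (R := ∑ j, G (Sum.inr (Sum.inr ⟨f, l, j⟩)) * G (Sum.inl (Sum.inl (J f j))) -
        G (Sum.inr (Sum.inl (Sum.inr f))) * G (Sum.inl (Sum.inl l))) (by
          rw [map_sub, map_mul, map_sum, hG, hG]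
          have h4 : ∀ j, map (aeval s).toRingHom (G (Sum.inr (Sum.inr ⟨f, l, j⟩)) * G (Sum.inl (Sum.inl (J f j)))) =
              B f l j * P (J f j) := by
            intro j
            rw [map_mul, hG, hG]
            rfl
          simp only [h4]
          change ∑ j, B f l j * P (J f j) - h f * P l = 0
          rw [hB f l]
          exact sub_self _)
      rw [map_sub, map_mul, map_sum] at h3
      simp only [map_mul] at h3
      exact h3
    have hγC : ∀ l, (map (algebraMap k C) (γ l)).IsHomogeneous (D l) := fun l => (hγ l).map _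
    refine smoothAt_of_smul hγC (a := a) ⟨c f, e f, J f, I f, map (algebraMap k C) (h' f),
      ((hGh (Sum.inr (Sum.inl (Sum.inr f))) (e f) (hh f)).map _).map _, ?_, ?_, ?_⟩
    · rw [eval_map_alg]
      intro h0
      apply hf0
      rw [e1, map_mul, h0, mul_zero]
    · intro l
      rw [← map_mul, ← e2 l, map_sum]
      refine Ideal.sum_mem _ fun j _ => ?_
      rw [map_mul]
      exact Ideal.mul_mem_left _ _ (Ideal.subset_span ⟨j, rfl⟩)
    · have h5 : aeval (fun i => a * x i) (Matrix.of fun j i : Fin (c f) => pderiv (I f i) (γ (J f j))).det =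
          (Matrix.of fun j i : Fin (c f) => eval (fun i => a * x i)
            (pderiv (I f i) (map (algebraMap k C) (γ (J f j))))).det := by
        rw [← eval_map_alg, map_jac]
        exact eval_jac _ (fun l => map (algebraMap k C) (γ l)) _ _
      intro h0
      apply hf0
      rw [e1, map_mul, h5.trans h0, zero_mul]
  · intro y l hy
    exact (hGy y (Sum.inl (Sum.inl l)) hy).trans (min_le_left _ _)

end Run7.h16.PX
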