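import Pool.Agent.Run7.h458.Dense
set_option autoImplicit false
set_option linter.unusedSectionVars false

/-!
# Simultaneous specialization of finitely many polynomials
-/

open MvPolynomial Pool.Agent.Y129.TA
open Pool.Agent.Y129.TB (IsConeOver Approximable InTube eval_map_alg DimLEOver)
open Run7.h458

namespace Run7.h16.PX

/-- Many points with pairwise distances `1`, in residue characteristic `p`. -/
theorem manyNodes₀ {k : Type} [Field k] [IsAlgClosed k] [CharZero k] {p : ℕ} [Fact p.Prime]
    (a : AbsoluteValue k ℝ) (ha : ∀ x y, a (x + y) ≤ max (a x) (a y)) (hp : a p < 1) : ManyNodes a := by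
  classical
  intro N
  have hnat : ∀ n : ℕ, a (n : k) ≤ 1 := by
    intro n
    induction n with
    | zero => rw [Nat.cast_zero, map_zero]; exact zero_le_one
    | succ n ih =>
      rw [Nat.cast_succ]
      exact (ha _ _).trans (max_le ih (by rw [map_one]))
  let q := p * (N + 1) + 1
  have hq0 : 0 < q := Nat.succ_pos _
  have hNq : N ≤ q := by
    have h1 : 1 ≤ p := (Fact.out : p.Prime).one_lt.le
    have h2 : 1 * (N + 1) ≤ p * (N + 1) := Nat.mul_le_mul_right _ h1
    omega
  have hq1 : a (q : k) = 1 := by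
    refine le_antisymm (hnat q) ?_
    by_contra hlt
    push Not at hlt
    have h1 : a ((p * (N + 1) : ℕ) : k) < 1 := by
      rw [Nat.cast_mul, map_mul]
      exact (mul_le_of_le_one_right (a.nonneg _) (hnat _)).trans_lt hp
    have h2 : (1 : k) = (q : k) + -((p * (N + 1) : ℕ) : k) := by
      simp only [q]
      push_cast
      ring
    have h3 : a (1 : k) < 1 := by
      rw [h2]
      refine (ha _ _).trans_lt (max_lt hlt ?_)
      rw [a.map_neg]
      exact h1
    rw [map_one] at h3
    exact lt_irrefl _ h3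
  have hne : NeZero (q : k) := ⟨by exact_mod_cast hq0.ne'⟩
  obtain ⟨ζ, hζ⟩ := HasEnoughRootsOfUnity.exists_primitiveRoot k q
  have h1a : ∀ x ∈ Polynomial.nthRootsFinset q (1 : k), a x = 1 := by
    intro x hx
    rw [Polynomial.mem_nthRootsFinset hq0] at hx
    have h2 : a x ^ q = 1 := by rw [← map_pow, hx, map_one]
    exact (pow_eq_one_iff_of_nonneg (a.nonneg _) hq0.ne').1 h2
  -- the main estimate
  have hone : ∀ w : k, w ^ q = 1 → w ≠ 1 → a (1 - w) = 1 := by
    intro w hw hw1
    have haw : a w = 1 := h1a w (by rw [Polynomial.mem_nthRootsFinset hq0]; exact hw)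
    have hle : a (1 - w) ≤ 1 := by
      rw [sub_eq_add_neg]
      refine (ha _ _).trans (max_le (by rw [map_one]) ?_)
      rw [a.map_neg, haw]
    refine le_antisymm hle ?_
    have hS : ∑ i ∈ Finset.range q, w ^ i = 0 := by
      have h2 := mul_geom_sum w q
      rw [hw, sub_self] at h2
      exact (mul_eq_zero.1 h2).resolve_left (sub_ne_zero.2 hw1)
    have hsum : ∀ s : Finset ℕ, a (∑ i ∈ s, w ^ i) ≤ 1 := by
      intro s
      induction s using Finset.induction_on with
      | empty => rw [Finset.sum_empty, map_zero]; exact zero_le_one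
      | insert i s hi ih =>
        rw [Finset.sum_insert hi]
        refine (ha _ _).trans (max_le ?_ ih)
        rw [map_pow, haw, one_pow]
    have hi : ∀ i : ℕ, a (1 - w ^ i) ≤ a (1 - w) := by
      intro i
      have h2 : 1 - w ^ i = (1 - w) * ∑ j ∈ Finset.range i, w ^ j := by
        have := mul_neg_geom_sum w i
        rw [this]
      rw [h2, map_mul]
      exact mul_le_of_le_one_right (a.nonneg _) (hsum _)
    have h3 : (q : k) = ∑ i ∈ Finset.range q, (1 - w ^ i) := by
      rw [Finset.sum_sub_distrib, hS, sub_zero, Finset.sum_const, Finset.card_range, nsmul_eq_mul, mul_one]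
    have h4 : ∀ s : Finset ℕ, a (∑ i ∈ s, (1 - w ^ i)) ≤ a (1 - w) := by
      intro s
      induction s using Finset.induction_on with
      | empty => rw [Finset.sum_empty, map_zero]; exact a.nonneg _
      | insert i s hi' ih =>
        rw [Finset.sum_insert hi']
        exact (ha _ _).trans (max_le (hi i) ih)
    calc (1 : ℝ) = a (q : k) := hq1.symm
      _ ≤ a (1 - w) := by rw [h3]; exact h4 _
  refine ⟨Polynomial.nthRootsFinset q (1 : k), ?_, fun x hx => (h1a x hx).le, ?_⟩
  · rw [hζ.card_nthRootsFinset]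
    exact hNq
  · intro x hx y hy hxy
    have hx1 := h1a x hx
    rw [Polynomial.mem_nthRootsFinset hq0] at hx hy
    have hx0 : x ≠ 0 := by
      rintro rfl
      rw [map_zero] at hx1
      exact zero_ne_one hx1
    have h2 : x - y = x * (1 - x⁻¹ * y) := by
      field_simp
    rw [h2, map_mul, hx1, one_mul]
    refine hone _ ?_ ?_
    · rw [mul_pow, inv_pow, hx, hy, inv_one, one_mul]
    · intro h3
      apply hxy
      have h4 : y = x * (x⁻¹ * y) := by field_simp
      rw [h4, h3, mul_one]

/-- Simultaneous specialization of finitely many polynomials. -/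
theorem exists_lift {k C : Type} [Field k] [IsAlgClosed k] [NormedField C] [IsAlgClosed C] [Algebra k C]
    (ha : ∀ x y : C, ‖x + y‖ ≤ max ‖x‖ ‖y‖)
    (hM : ManyNodes ((NormedField.toAbsoluteValue C).comp (algebraMap k C).injective))
    (hd : ∀ x : C, ∀ ε : ℝ, 0 < ε → ∃ e : k, ‖algebraMap k C e - x‖ < ε) {n : ℕ} {α : Type} [Fintype α]
    (Q : α → MvPolynomial (Fin n) C) {δ : ℝ} (hδ : 0 < δ) :
    ∃ (m : ℕ) (s : Fin m → C) (z : Fin m → k)
      (G : α → MvPolynomial (Fin n) (MvPolynomial (Fin m) k)),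
      (∀ f : MvPolynomial (Fin m) k, aeval s f = 0 → eval z f = 0) ∧
      (∀ l, map (aeval s).toRingHom (G l) = Q l) ∧
      (∀ l D, (Q l).IsHomogeneous D → (G l).IsHomogeneous D) ∧
      ∀ (y : Fin n → C) l, (∀ i, ‖y i‖ ≤ 1) → ‖aeval y (map (eval z) (G l)) - eval y (Q l)‖ ≤ δ := by
  classical
  let ρ := (l : α) × (Q l).support
  let e : ρ ≃ Fin (Fintype.card ρ) := Fintype.equivFin ρ
  let s : Fin (Fintype.card ρ) → C := fun j => coeff ((e.symm j).2 : Fin n →₀ ℕ) (Q (e.symm j).1)
  let G : α → MvPolynomial (Fin n) (MvPolynomial (Fin (Fintype.card ρ)) k) := fun l =>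
    ∑ β : (Q l).support, monomial (β : Fin n →₀ ℕ) (X (e ⟨l, β⟩))
  have hGmap : ∀ (R : Type) [CommRing R] (φ : MvPolynomial (Fin (Fintype.card ρ)) k →+* R) l,
      map φ (G l) = ∑ β : (Q l).support, monomial (β : Fin n →₀ ℕ) (φ (X (e ⟨l, β⟩))) := by
    intro R _ φ l
    rw [map_sum]
    exact Finset.sum_congr rfl fun β _ => map_monomial _ _ _
  have hGh : ∀ l D, (Q l).IsHomogeneous D → (G l).IsHomogeneous D := by
    intro l D hD
    refine IsHomogeneous.sum _ _ _ fun β _ => isHomogeneous_monomial _ ?_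
    rw [← hD (mem_support_iff.1 β.2), Finsupp.degree_eq_weight_one (R := ℕ)]
    rfl
  obtain ⟨z, hz, hzs⟩ := exists_specialization ha hM hd s hδ
  have hs : ∀ l, map (aeval s).toRingHom (G l) = Q l := by
    intro l
    rw [hGmap]
    have h1 : ∀ β : (Q l).support, (aeval s).toRingHom (X (e ⟨l, β⟩) : MvPolynomial (Fin (Fintype.card ρ)) k) =
        coeff (β : Fin n →₀ ℕ) (Q l) := by
      intro β
      change aeval s (X (e ⟨l, β⟩)) = _
      rw [aeval_X]
      change coeff ((e.symm (e ⟨l, β⟩)).2 : Fin n →₀ ℕ) (Q (e.symm (e ⟨l, β⟩)).1) = _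
      rw [Equiv.symm_apply_apply]
    simp only [h1]
    rw [Finset.sum_coe_sort (Q l).support fun β => monomial β (coeff β (Q l))]
    exact support_sum_monomial_coeff _
  have hzz : ∀ f : MvPolynomial (Fin (Fintype.card ρ)) k, aeval (fun i => algebraMap k C (z i)) f =
      algebraMap k C (eval z f) := fun f =>
    (MvPolynomial.eval₂_comp_left (algebraMap k C) (RingHom.id k) z f).symm
  have hmm : ∀ l, map (aeval fun i => algebraMap k C (z i)).toRingHom (G l) =
      map (algebraMap k C) (map (eval z) (G l)) := by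
    intro l
    rw [map_map]
    congr 1
    exact congrArg _ (RingHom.ext fun f => hzz f)
  refine ⟨Fintype.card ρ, s, z, G, hz, hs, hGh, fun y l hy => ?_⟩
  rw [← eval_map_alg, ← hmm, ← hs l, hGmap, hGmap, ← map_sub, ← Finset.sum_sub_distrib, map_sum]
  have hδ0 : 0 ≤ δ := hδ.le
  refine ultra_sum (a := NormedField.toAbsoluteValue C) ha Finset.univ _ hδ0 fun β _ => ?_
  change ‖eval y _‖ ≤ δ
  have h1 : (aeval fun i => algebraMap k C (z i)).toRingHom
      (X (e ⟨l, β⟩) : MvPolynomial (Fin (Fintype.card ρ)) k) = algebraMap k C (z (e ⟨l, β⟩)) := aeval_X _ _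
  have h2 : (aeval s).toRingHom (X (e ⟨l, β⟩) : MvPolynomial (Fin (Fintype.card ρ)) k) = s (e ⟨l, β⟩) :=
    aeval_X _ _
  rw [h1, h2, ← map_sub, eval_monomial, norm_mul]
  have h3 : ‖(β : Fin n →₀ ℕ).prod fun i k => y i ^ k‖ ≤ 1 := by
    rw [Finsupp.prod, norm_prod]
    refine Finset.prod_le_one (fun i _ => norm_nonneg _) fun i _ => ?_
    rw [norm_pow]
    exact pow_le_one₀ (norm_nonneg _) (hy i)
  exact (mul_le_mul (hzs _) h3 (norm_nonneg _) hδ0).trans_eq (mul_one δ)

/-- Transfer of polynomial identities. -/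
theorem transfer {k C : Type} [Field k] [Field C] [Algebra k C] {m n : ℕ} {s : Fin m → C} {z : Fin m → k}
    (hz : ∀ f : MvPolynomial (Fin m) k, aeval s f = 0 → eval z f = 0)
    {R : MvPolynomial (Fin n) (MvPolynomial (Fin m) k)} (h : map (aeval s).toRingHom R = 0) :
    map (eval z) R = 0 := by
  ext γ
  rw [coeff_map, coeff_zero]
  refine hz _ ?_
  have h4 := congrArg (coeff γ) h
  rwa [coeff_map, coeff_zero] at h4

end Run7.h16.PX
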